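import Pool.Agent.helper17.SG.SpecP

set_option autoImplicit false

open MeasureTheory Set Metric Filter Topology
open scoped ENNReal NNReal ComplexConjugate

namespace Pool.Agent.SG

theorem P06_step (Γ : Type) [Group Γ] (W : Walk Γ) (D : Set Γ) (n : ℕ) :
    ∀ x w, W.exn D n x w ≤ W.exn D (n + 1) x w := by
  induction n with
  | zero =>
    intro x w
    by_cases hx : x ∈ D
    · simp [Walk.exn, hx]
    · simp [Walk.exn, hx]
  | succ n ih =>
    intro x w
    by_cases hx : x ∈ D
    · rw [Walk.exn, Walk.exn]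
      simp only [hx, if_true]
      exact Finset.sum_le_sum fun s _ => mul_le_mul_right (ih _ _) _
    · simp [Walk.exn, hx]

theorem P06_mono (Γ : Type) [Group Γ] (W : Walk Γ) (D : Set Γ) (x w : Γ) :
    Monotone fun n => W.exn D n x w :=
  monotone_nat_of_le_succ fun n => P06_step Γ W D n x w

theorem P06_out (Γ : Type) [Group Γ] (W : Walk Γ) (D : Set Γ) (h : Γ → ℝ≥0∞) (n : ℕ) (x : Γ)
    (hx : x ∉ D) : ∑' w, W.exn D n x w * h w = h x := by
  have h0 : W.exn D n x x = 1 := by
    cases n with
    | zero => simp [Walk.exn, hx]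
    | succ n => simp [Walk.exn, hx]
  have h1 : ∀ w, w ≠ x → W.exn D n x w = 0 := by
    intro w hw
    cases n with
    | zero => simp [Walk.exn, hx, Ne.symm hw]
    | succ n => simp [Walk.exn, hx, Ne.symm hw]
  rw [tsum_eq_single x]
  · rw [h0, one_mul]
  · intro w hw
    rw [h1 w hw, zero_mul]

theorem P06_n (Γ : Type) [Group Γ] (W : Walk Γ) (D : Set Γ) (h : Γ → ℝ≥0∞) (hh : W.Harm h)
    (n : ℕ) : ∀ x, ∑' w, W.exn D n x w * h w ≤ h x := by
  induction n with
  | zero =>
    intro x
    by_cases hx : x ∈ D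
    · simp [Walk.exn, hx]
    · exact (P06_out Γ W D h 0 x hx).le
  | succ n ih =>
    intro x
    by_cases hx : x ∈ D
    · have h1 : ∀ w, W.exn D (n + 1) x w * h w
          = ∑ s ∈ W.S, W.μ s * (W.exn D n (x * s) w * h w) := by
        intro w
        rw [Walk.exn]
        simp only [hx, if_true]
        rw [Finset.sum_mul]
        exact Finset.sum_congr rfl fun s _ => by rw [mul_assoc]
      calc ∑' w, W.exn D (n + 1) x w * h w
          = ∑' w, ∑ s ∈ W.S, W.μ s * (W.exn D n (x * s) w * h w) := by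
            exact tsum_congr h1
        _ = ∑ s ∈ W.S, ∑' w, W.μ s * (W.exn D n (x * s) w * h w) := by
            exact Summable.tsum_finsetSum fun s _ => ENNReal.summable
        _ = ∑ s ∈ W.S, W.μ s * ∑' w, (W.exn D n (x * s) w * h w) := by
            exact Finset.sum_congr rfl fun s _ => ENNReal.tsum_mul_left
        _ ≤ ∑ s ∈ W.S, W.μ s * h (x * s) :=
            Finset.sum_le_sum fun s _ => mul_le_mul_right (ih _) _
        _ = h x := (hh x).symm
    · exact (P06_out Γ W D h (n + 1) x hx).le

theorem P06 : P06_stmt := by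
  intro Γ _ W D h hh x
  have h1 : ∀ w, W.exi D x w * h w = ⨆ n, W.exn D n x w * h w := by
    intro w
    rw [Walk.exi, ENNReal.iSup_mul]
  rw [tsum_congr h1, ENNReal.tsum_eq_iSup_sum]
  refine iSup_le fun s => ?_
  have hm : ∀ w, Monotone fun n => W.exn D n x w * h w := fun w a b hab =>
    mul_le_mul_left (P06_mono Γ W D x w hab) _
  rw [ENNReal.finsetSum_iSup_of_monotone hm]
  refine iSup_le fun n => ?_
  exact (ENNReal.sum_le_tsum s).trans (P06_n Γ W D h hh n x)

end Pool.Agent.SG
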