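import Pool.Agent.helper3.SG.SpecS

set_option autoImplicit false

open MeasureTheory Set Metric Filter Topology
open scoped ENNReal NNReal ComplexConjugate commutatorElement

namespace Pool.Agent.SG

/-- product of the matrices `[[a, b], [conj b, conj a]]` -/
def S09_mul (p q : ℂ × ℂ) : ℂ × ℂ :=
  (p.1 * q.1 + p.2 * conj q.2, p.1 * q.2 + p.2 * conj q.1)

/-- adjugate -/
def S09_inv (p : ℂ × ℂ) : ℂ × ℂ := (conj p.1, -p.2)

/-- the norm -/
noncomputable def S09_n (p : ℂ × ℂ) : ℝ := ‖p.1‖ + ‖p.2‖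

/-- the deviation of a pair -/
noncomputable def S09_d (p : ℂ × ℂ) : ℝ := min ‖p.1 - 1‖ ‖p.1 + 1‖ + ‖p.2‖

theorem S09_n_nonneg (p : ℂ × ℂ) : 0 ≤ S09_n p := by
  unfold S09_n; positivity

theorem S09_n_mul (p q : ℂ × ℂ) : S09_n (S09_mul p q) ≤ S09_n p * S09_n q := by
  unfold S09_n S09_mul
  have h1 : ‖p.1 * q.1 + p.2 * conj q.2‖ ≤ ‖p.1‖ * ‖q.1‖ + ‖p.2‖ * ‖q.2‖ := by
    refine (norm_add_le _ _).trans ?_
    rw [norm_mul, norm_mul, RCLike.norm_conj]
  have h2 : ‖p.1 * q.2 + p.2 * conj q.1‖ ≤ ‖p.1‖ * ‖q.2‖ + ‖p.2‖ * ‖q.1‖ := by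
    refine (norm_add_le _ _).trans ?_
    rw [norm_mul, norm_mul, RCLike.norm_conj]
  simp only
  nlinarith

theorem S09_n_add (p q : ℂ × ℂ) : S09_n (p + q) ≤ S09_n p + S09_n q := by
  unfold S09_n
  have h1 := norm_add_le p.1 q.1
  have h2 := norm_add_le p.2 q.2
  simp only [Prod.fst_add, Prod.snd_add]
  linarith

theorem S09_n_neg (p : ℂ × ℂ) : S09_n (-p) = S09_n p := by
  unfold S09_n; simp

theorem S09_n_inv (p : ℂ × ℂ) : S09_n (S09_inv p) = S09_n p := by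
  unfold S09_n S09_inv; simp

theorem S09_n_one : S09_n ((1, 0) : ℂ × ℂ) = 1 := by
  unfold S09_n; simp

theorem S09_d_neg (p : ℂ × ℂ) : S09_d (-p) = S09_d p := by
  unfold S09_d
  simp only [Prod.fst_neg, Prod.snd_neg, norm_neg]
  rw [show -p.1 - 1 = -(p.1 + 1) by ring, show -p.1 + 1 = -(p.1 - 1) by ring, norm_neg, norm_neg,
    min_comm]

theorem S09_d_le (E : ℂ × ℂ) : S09_d ((1, 0) + E) ≤ S09_n E := by
  unfold S09_d S09_n
  simp only [Prod.fst_add, Prod.snd_add, zero_add, add_sub_cancel_left]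
  have := min_le_left ‖E.1‖ ‖(1 : ℂ) + E.1 + 1‖
  linarith

theorem S09_ex (p : ℂ × ℂ) : ∃ E : ℂ × ℂ, (p = (1, 0) + E ∨ p = -((1, 0) + E)) ∧
    S09_n E = S09_d p := by
  unfold S09_d S09_n
  rcases le_total ‖p.1 - 1‖ ‖p.1 + 1‖ with h | h
  · refine ⟨(p.1 - 1, p.2), Or.inl ?_, ?_⟩
    · ext <;> simp
    · rw [min_eq_left h]
  · refine ⟨(-p.1 - 1, -p.2), Or.inr ?_, ?_⟩
    · ext <;> simp
    · rw [min_eq_right h]
      simp only [norm_neg]
      rw [show -p.1 - 1 = -(p.1 + 1) by ring, norm_neg]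

theorem S09_negmul (p q : ℂ × ℂ) : S09_mul (-p) q = -S09_mul p q := by
  unfold S09_mul
  ext <;> simp <;> ring

theorem S09_mulneg (p q : ℂ × ℂ) : S09_mul p (-q) = -S09_mul p q := by
  unfold S09_mul
  ext <;> simp <;> ring

theorem S09_invneg (p : ℂ × ℂ) : S09_inv (-p) = -S09_inv p := by
  unfold S09_inv
  ext <;> simp

theorem S09_assoc (p q r : ℂ × ℂ) : S09_mul (S09_mul p q) r = S09_mul p (S09_mul q r) := by
  unfold S09_mul
  ext <;> simp <;> ring

theorem S09_mul_add (p q r : ℂ × ℂ) : S09_mul p (q + r) = S09_mul p q + S09_mul p r := by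
  unfold S09_mul
  ext <;> simp <;> ring

theorem S09_add_mul (p q r : ℂ × ℂ) : S09_mul (p + q) r = S09_mul p r + S09_mul q r := by
  unfold S09_mul
  ext <;> simp <;> ring

theorem S09_one_mul (p : ℂ × ℂ) : S09_mul (1, 0) p = p := by
  unfold S09_mul
  ext <;> simp

theorem S09_mul_one (p : ℂ × ℂ) : S09_mul p (1, 0) = p := by
  unfold S09_mul
  ext <;> simp

theorem S09_mul_inv (p : ℂ × ℂ) (h : ‖p.1‖ ^ 2 - ‖p.2‖ ^ 2 = 1) :
    S09_mul p (S09_inv p) = (1, 0) := by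
  unfold S09_mul S09_inv
  ext
  · simp only [map_neg, mul_neg]
    rw [Complex.mul_conj', Complex.mul_conj']
    have : ((‖p.1‖ ^ 2 - ‖p.2‖ ^ 2 : ℝ) : ℂ) = 1 := by rw [h]; simp
    push_cast at this
    linear_combination this
  · simp only [Complex.conj_conj]
    ring

section
variable {Γ : Type} [Group Γ]

/-- the pair of an element -/
def S09_M (A : DiscRep Γ) (γ : Γ) : ℂ × ℂ := (A.a γ, A.b γ)

theorem S09_dev (A : DiscRep Γ) (γ : Γ) : A.dev γ = S09_d (S09_M A γ) := rfl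

theorem S09_Mmul (h01 : S01_stmt) (A : DiscRep Γ) (γ δ : Γ) :
    S09_M A (γ * δ) = S09_mul (S09_M A γ) (S09_M A δ) ∨
    S09_M A (γ * δ) = -S09_mul (S09_M A γ) (S09_M A δ) := by
  obtain ⟨ε, he, h1, h2⟩ := (h01 Γ A).1 γ δ
  rcases he with rfl | rfl
  · left
    unfold S09_M S09_mul
    rw [h1, h2]
    ext <;> simp
  · right
    unfold S09_M S09_mul
    rw [h1, h2]
    ext <;> simp

theorem S09_Minv (h01 : S01_stmt) (A : DiscRep Γ) (γ : Γ) :
    S09_M A γ⁻¹ = S09_inv (S09_M A γ) ∨ S09_M A γ⁻¹ = -S09_inv (S09_M A γ) := by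
  obtain ⟨ε, he, h1, h2⟩ := (h01 Γ A).2.2 γ
  rcases he with rfl | rfl
  · left
    unfold S09_M S09_inv
    rw [h1, h2]
    ext <;> simp
  · right
    unfold S09_M S09_inv
    rw [h1, h2]
    ext <;> simp

/-- up to sign -/
def S09_eq (p q : ℂ × ℂ) : Prop := p = q ∨ p = -q

theorem S09_eq_mul {p q r s : ℂ × ℂ} (h : S09_eq p q) (h' : S09_eq r s) :
    S09_eq (S09_mul p r) (S09_mul q s) := by
  rcases h with rfl | rfl <;> rcases h' with rfl | rfl
  · exact Or.inl rfl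
  · right; rw [S09_mulneg]
  · right; rw [S09_negmul]
  · left; rw [S09_negmul, S09_mulneg, neg_neg]

theorem S09_eq_inv {p q : ℂ × ℂ} (h : S09_eq p q) : S09_eq (S09_inv p) (S09_inv q) := by
  rcases h with rfl | rfl
  · exact Or.inl rfl
  · right; rw [S09_invneg]

theorem S09_eq_trans {p q r : ℂ × ℂ} (h : S09_eq p q) (h' : S09_eq q r) : S09_eq p r := by
  rcases h with rfl | rfl <;> rcases h' with rfl | rfl
  · exact Or.inl rfl
  · exact Or.inr rfl
  · exact Or.inr rfl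
  · left; rw [neg_neg]

theorem S09_eq_symm {p q : ℂ × ℂ} (h : S09_eq p q) : S09_eq q p := by
  rcases h with rfl | rfl
  · exact Or.inl rfl
  · right; rw [neg_neg]

theorem S09_eq_d {p q : ℂ × ℂ} (h : S09_eq p q) : S09_d p = S09_d q := by
  rcases h with rfl | rfl
  · rfl
  · exact S09_d_neg _

theorem S09_eq_n {p q : ℂ × ℂ} (h : S09_eq p q) : S09_n p = S09_n q := by
  rcases h with rfl | rfl
  · rfl
  · exact S09_n_neg _

theorem S09_norm (A : DiscRep Γ) (γ : Γ) :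
    ‖(S09_M A γ).1‖ ^ 2 - ‖(S09_M A γ).2‖ ^ 2 = 1 := A.norm_eq γ

end

theorem S09 (h01 : S01_stmt) : S09_stmt := by
  intro Γ _ A
  refine ⟨?_, ?_, ?_, ?_⟩
  · intro γ δ
    obtain ⟨F, hF, hFn⟩ := S09_ex (S09_M A δ)
    have hF' : S09_eq (S09_M A δ) ((1, 0) + F) := hF
    set P := S09_M A γ with hP
    have h1 : S09_eq (S09_M A (γ * δ * γ⁻¹)) (S09_mul (S09_mul P ((1, 0) + F)) (S09_inv P)) := by
      refine S09_eq_trans (S09_Mmul h01 A (γ * δ) γ⁻¹) (S09_eq_mul ?_ (S09_Minv h01 A γ))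
      exact S09_eq_trans (S09_Mmul h01 A γ δ) (S09_eq_mul (Or.inl rfl) hF')
    have h2 : S09_mul (S09_mul P ((1, 0) + F)) (S09_inv P) =
        (1, 0) + S09_mul (S09_mul P F) (S09_inv P) := by
      rw [S09_mul_add, S09_add_mul, S09_mul_one, S09_mul_inv P (S09_norm A γ)]
    rw [S09_dev, S09_eq_d h1, h2]
    refine (S09_d_le _).trans ((S09_n_mul _ _).trans ?_)
    rw [S09_n_inv]
    have h3 : S09_n P ≤ 2 * ‖A.a γ‖ := by
      have h4 := A.norm_eq γ
      have h5 : ‖A.b γ‖ ≤ ‖A.a γ‖ := by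
        apply le_of_sq_le_sq _ (norm_nonneg _)
        linarith
      show ‖A.a γ‖ + ‖A.b γ‖ ≤ _
      linarith
    have h6 : S09_n (S09_mul P F) ≤ 2 * ‖A.a γ‖ * S09_n F :=
      (S09_n_mul _ _).trans (mul_le_mul_of_nonneg_right h3 (S09_n_nonneg _))
    rw [S09_dev, ← hFn]
    calc S09_n (S09_mul P F) * S09_n P ≤ (2 * ‖A.a γ‖ * S09_n F) * (2 * ‖A.a γ‖) :=
          mul_le_mul h6 h3 (S09_n_nonneg _) (by have := S09_n_nonneg F; positivity)
      _ = _ := by ring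
  · intro γ δ
    obtain ⟨E, hE, hEn⟩ := S09_ex (S09_M A γ)
    have hE' : S09_eq (S09_M A γ) ((1, 0) + E) := hE
    obtain ⟨F, hF, hFn⟩ := S09_ex (S09_M A δ)
    have hF' : S09_eq (S09_M A δ) ((1, 0) + F) := hF
    set P : ℂ × ℂ := (1, 0) + E with hP
    set Q : ℂ × ℂ := (1, 0) + F with hQ
    have hPn : ‖P.1‖ ^ 2 - ‖P.2‖ ^ 2 = 1 := by
      have := S09_norm A γ
      rcases hE' with h | h
      · rwa [h] at this
      · rw [h] at this; simpa using this
    have hQn : ‖Q.1‖ ^ 2 - ‖Q.2‖ ^ 2 = 1 := by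
      have := S09_norm A δ
      rcases hF' with h | h
      · rwa [h] at this
      · rw [h] at this; simpa using this
    have h1 : S09_eq (S09_M A ⁅γ, δ⁆) (S09_mul (S09_mul (S09_mul P Q) (S09_inv P)) (S09_inv Q)) := by
      rw [commutatorElement_def]
      refine S09_eq_trans (S09_Mmul h01 A (γ * δ * γ⁻¹) δ⁻¹) (S09_eq_mul ?_ ?_)
      · refine S09_eq_trans (S09_Mmul h01 A (γ * δ) γ⁻¹) (S09_eq_mul ?_ ?_)
        · exact S09_eq_trans (S09_Mmul h01 A γ δ) (S09_eq_mul hE' hF')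
        · exact S09_eq_trans (S09_Minv h01 A γ) (S09_eq_inv hE')
      · exact S09_eq_trans (S09_Minv h01 A δ) (S09_eq_inv hF')
    have h2 : S09_mul P Q = S09_mul Q P + (S09_mul E F + -S09_mul F E) := by
      rw [hP, hQ]
      simp only [S09_mul_add, S09_add_mul, S09_mul_one, S09_one_mul]
      abel
    have h3 : S09_mul (S09_mul (S09_mul P Q) (S09_inv P)) (S09_inv Q) = (1, 0) +
        S09_mul (S09_mul (S09_mul E F + -S09_mul F E) (S09_inv P)) (S09_inv Q) := by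
      rw [h2, S09_add_mul, S09_add_mul, S09_assoc Q P, S09_mul_inv P hPn, S09_mul_one,
        S09_mul_inv Q hQn]
    have hn1 : S09_n P ≤ 1 + S09_n E := by
      have := S09_n_add (1, 0) E
      rwa [S09_n_one] at this
    have hn2 : S09_n Q ≤ 1 + S09_n F := by
      have := S09_n_add (1, 0) F
      rwa [S09_n_one] at this
    have hc : S09_n (S09_mul E F + -S09_mul F E) ≤ 2 * S09_n E * S09_n F := by
      refine (S09_n_add _ _).trans ?_
      rw [S09_n_neg]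
      have h4 := S09_n_mul E F
      have h5 := S09_n_mul F E
      nlinarith
    rw [S09_dev, S09_eq_d h1, h3]
    refine (S09_d_le _).trans ((S09_n_mul _ _).trans ?_)
    rw [S09_n_inv, S09_dev, S09_dev, ← hEn, ← hFn]
    have h6 : S09_n (S09_mul (S09_mul E F + -S09_mul F E) (S09_inv P)) ≤
        2 * S09_n E * S09_n F * (1 + S09_n E) := by
      refine (S09_n_mul _ _).trans ?_
      rw [S09_n_inv]
      exact mul_le_mul hc hn1 (S09_n_nonneg _)
        (by have := S09_n_nonneg E; have := S09_n_nonneg F; positivity)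
    exact mul_le_mul h6 hn2 (S09_n_nonneg _)
      (by have := S09_n_nonneg E; have := S09_n_nonneg F; positivity)
  · intro γ δ
    obtain ⟨E, hE, hEn⟩ := S09_ex (S09_M A γ)
    have hE' : S09_eq (S09_M A γ) ((1, 0) + E) := hE
    obtain ⟨F, hF, hFn⟩ := S09_ex (S09_M A δ)
    have hF' : S09_eq (S09_M A δ) ((1, 0) + F) := hF
    have h1 : S09_eq (S09_M A (γ * δ)) (S09_mul ((1, 0) + E) ((1, 0) + F)) :=
      S09_eq_trans (S09_Mmul h01 A γ δ) (S09_eq_mul hE' hF')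
    have h2 : S09_mul ((1, 0) + E) ((1, 0) + F) = (1, 0) + (E + F + S09_mul E F) := by
      simp only [S09_mul_add, S09_add_mul, S09_mul_one, S09_one_mul]
      abel
    rw [S09_dev, S09_eq_d h1, h2]
    refine (S09_d_le _).trans ((S09_n_add _ _).trans ?_)
    rw [S09_dev, S09_dev, ← hEn, ← hFn]
    have h3 := S09_n_add E F
    have h4 := S09_n_mul E F
    linarith
  · intro γ
    rw [S09_dev, S09_eq_d (S09_Minv h01 A γ), S09_dev]
    unfold S09_d S09_inv
    simp only [norm_neg]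
    have h1 : ‖conj (S09_M A γ).1 - 1‖ = ‖(S09_M A γ).1 - 1‖ := by
      rw [← RCLike.norm_conj ((S09_M A γ).1 - 1)]; simp
    have h2 : ‖conj (S09_M A γ).1 + 1‖ = ‖(S09_M A γ).1 + 1‖ := by
      rw [← RCLike.norm_conj ((S09_M A γ).1 + 1)]; simp
    rw [h1, h2]

end Pool.Agent.SG
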