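import Pool.Agent.helper80.SG.Spec2

set_option autoImplicit false
set_option linter.unusedSectionVars false

namespace Pool.Agent.SG

open MvPolynomial Module Pool.Agent.SV

theorem CNP_ptc {ι κ : Type} [Fintype ι] [DecidableEq ι] [Fintype κ] [DecidableEq κ] (c : ι → κ)
    (T : Finset κ) (P : (ι → ℂ) × (ι → ℂ)) : ptc c T 0 P = P.1 := by
  funext i
  unfold ptc
  by_cases h : c i ∈ T <;> simp [h]

theorem CNP_cut {ι : Type} [Fintype ι] [DecidableEq ι] (w : ι → ℂ) :
    cut (Finset.univ : Finset ι) w = w := by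
  funext i
  simp [cut]

theorem CNP (h1 : CN1_stmt) (h2 : CPL_stmt) (hSMP : SMP_stmt) (hGKR : GKR_stmt) : CNP_stmt := by
  classical
  intro ι κ _ _ _ _ c T d hc hd hT hs hD2 L Γ _ _ dbl role hwin hwin2
  refine hGKR (compL c T d dbl role) (fun Z₀ Z₁ v w => h2 c T d dbl role Z₀ Z₁ v w) _ ?_
  set D := Dk c Finset.univ d with hD
  set b := (Finset.univ.filter (fun l => dbl l = true)).card with hb
  set u := (Finset.univ.filter (fun l => dbl l = false)).card with hu
  have e1 : {l // dbl l = true} ≃ Fin b := Fintype.equivFinOfCardEq (by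
    rw [hb, Fintype.card_subtype])
  have e0 : {l // dbl l = false} ≃ Fin u := Fintype.equivFinOfCardEq (by
    rw [hu, Fintype.card_subtype])
  have eΓ : Γ ≃ Fin (Fintype.card Γ) := Fintype.equivFin Γ
  have hsum : ∑ γ : Fin (Fintype.card Γ), rk D (role (eΓ.symm γ)) = ∑ γ, rk D (role γ) :=
    Equiv.sum_comp eΓ.symm (fun γ => rk D (role γ))
  have hsum2 : ∑ γ : Fin (Fintype.card Γ), rkb D (role (eΓ.symm γ)) = ∑ γ, rkb D (role γ) :=
    Equiv.sum_comp eΓ.symm (fun γ => rkb D (role γ))
  obtain ⟨x, y, hxy⟩ := h1 c T d hc hd hT hs hD2 b (Fintype.card Γ) (fun γ => role (eΓ.symm γ))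
    (by rw [← hD, hsum]; exact hwin) (by rw [← hD, hsum2]; exact hwin2)
  rw [hsum] at hxy
  set K : Submodule ℂ ↥(Sec c Finset.univ d) :=
    (⨅ i, LinearMap.ker (PhiC c T d true (x i))) ⊓
      ⨅ γ, LinearMap.ker (roleS c T d (role (eΓ.symm γ)) (y γ)) with hK
  have hinj : Function.Injective (Sec c Finset.univ d).subtype := Submodule.injective_subtype _
  obtain ⟨q, hq⟩ := hSMP Finset.univ (K.map (Sec c Finset.univ d).subtype) (fun g _ hg =>
    MvPolynomial.funext fun w => by
      have := hg w
      rw [CNP_cut] at this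
      rw [this, map_zero]) u
  have hKQ : finrank ℂ ↥(K.map (Sec c Finset.univ d).subtype) = finrank ℂ K :=
    (LinearEquiv.finrank_eq (Submodule.equivMapOfInjective _ hinj K)).symm
  refine ⟨(fun l => if h : dbl l = true then (x (e1 ⟨l, h⟩)).1
    else q (e0 ⟨l, by simpa using h⟩), fun γ => y (eΓ γ)), ?_⟩
  set Z : (L → ι → ℂ) × (Γ → (ι → ℂ) × (ι → ℂ)) :=
    (fun l => if h : dbl l = true then (x (e1 ⟨l, h⟩)).1
      else q (e0 ⟨l, by simpa using h⟩), fun γ => y (eΓ γ)) with hZ
  have hle : (LinearMap.ker (compL c T d dbl role Z)).map (Sec c Finset.univ d).subtype ≤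
      K.map (Sec c Finset.univ d).subtype ⊓
        ⨅ j, LinearMap.ker (evL (cut Finset.univ (q j))) := by
    rintro _ ⟨f, hf, rfl⟩
    obtain ⟨a1, a2, a3⟩ := (mem_ker_compL c T d dbl role Z f).mp hf
    refine ⟨⟨f, ?_, rfl⟩, ?_⟩
    · refine ⟨?_, ?_⟩
      · rw [SetLike.mem_coe, Submodule.mem_iInf]
        intro i
        rw [LinearMap.mem_ker]
        funext ai
        obtain ⟨a, j⟩ := ai
        rw [PhiC_apply]
        by_cases ha : a = 0
        · rw [if_neg (by simp [ha]), ha, CNP_ptc]
          have h5 := a2 (e1.symm i).1 (e1.symm i).2 j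
          have h6 : Z.1 (e1.symm i).1 = (x i).1 := by
            rw [hZ]
            simp only
            rw [dif_pos (e1.symm i).2]
            congr 2
            exact e1.apply_symm_apply i
          rw [h6] at h5
          exact h5
        · rw [if_pos ⟨rfl, ha⟩]
          rfl
      · rw [SetLike.mem_coe, Submodule.mem_iInf]
        intro γ
        rw [LinearMap.mem_ker]
        have h5 := a3 (eΓ.symm γ)
        have h6 : Z.2 (eΓ.symm γ) = y γ := by
          rw [hZ]
          simp only
          rw [eΓ.apply_symm_apply]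
        rw [h6] at h5
        exact h5
    · rw [SetLike.mem_coe, Submodule.mem_iInf]
      intro j
      rw [LinearMap.mem_ker, evL_apply, CNP_cut]
      have h5 := a1 (e0.symm j).1
      have h6 : Z.1 (e0.symm j).1 = q j := by
        have h7 : ¬ dbl (e0.symm j).1 = true := by
          rw [(e0.symm j).2]
          decide
        rw [hZ]
        simp only
        rw [dif_neg h7]
        congr 1
        exact e0.apply_symm_apply j
      rw [h6] at h5
      exact h5
  have h8 : finrank ℂ ↥(LinearMap.ker (compL c T d dbl role Z)) =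
      finrank ℂ ↥((LinearMap.ker (compL c T d dbl role Z)).map (Sec c Finset.univ d).subtype) :=
    LinearEquiv.finrank_eq (Submodule.equivMapOfInjective _ hinj _)
  have h9 : finrank ℂ ↥((LinearMap.ker (compL c T d dbl role Z)).map
      (Sec c Finset.univ d).subtype) ≤
      finrank ℂ ↥(K.map (Sec c Finset.univ d).subtype ⊓
        ⨅ j, LinearMap.ker (evL (cut Finset.univ (q j)))) :=
    Submodule.finrank_mono hle
  rw [hKQ] at hq
  rw [h8]
  calc _ ≤ _ := h9
    _ ≤ finrank ℂ K - u := hq
    _ ≤ _ := Nat.sub_le_sub_right hxy u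

end Pool.Agent.SG
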