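import Pool.Agent.helper80.SG.Spec

/-!
# Project sg: (MP_b5a345_ag), RLT: ranks of the target conditions and of role `0`
-/

set_option autoImplicit false
set_option linter.unusedSectionVars false

namespace Pool.Agent.SG

open MvPolynomial Module Pool.Agent.SV

section
variable {ι κ : Type} [Fintype ι] [DecidableEq ι] [Fintype κ] [DecidableEq κ]

theorem RLT_rank {E J : Type} [AddCommGroup E] [Module ℂ E] [Fintype J] {I : Type} [Fintype I]
    (L : E →ₗ[ℂ] (J → ℂ)) (e : I → E) (hv : LinearIndependent ℂ (fun i => L (e i))) :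
    Fintype.card I ≤ finrank ℂ (LinearMap.range L) := by
  let w : I → LinearMap.range L := fun i => ⟨L (e i), e i, rfl⟩
  have hw : LinearIndependent ℂ w := by
    refine LinearIndependent.of_comp (LinearMap.range L).subtype ?_
    exact hv
  exact hw.fintype_card_le_finrank

/-- the exponents -/
noncomputable def RLT_m (c : ι → κ) (o o' : κ → ι) (d e : κ → ℕ) : ι →₀ ℕ :=
  Finsupp.equivFunOnFinite.symm fun j => (if j = o (c j) then d (c j) - e (c j) else 0) +
    (if j = o' (c j) then e (c j) else 0)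

theorem RLT_m_apply (c : ι → κ) (o o' : κ → ι) (d e : κ → ℕ) (j : ι) :
    RLT_m c o o' d e j = (if j = o (c j) then d (c j) - e (c j) else 0) +
    (if j = o' (c j) then e (c j) else 0) := rfl

theorem RLT_sum (c : ι → κ) (o : κ → ι) (ho : ∀ k, c (o k) = k) (F : κ → ℕ) (k : κ) :
    ∑ j ∈ Finset.univ.filter (fun j => c j = k), (if j = o (c j) then F (c j) else 0) = F k := by
  rw [Finset.sum_eq_single (o k)]
  · rw [ho, if_pos rfl]
  · intro j hj hne
    rw [Finset.mem_filter] at hj
    rw [if_neg]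
    rw [hj.2]
    exact hne
  · intro h
    exfalso
    apply h
    rw [Finset.mem_filter]
    exact ⟨Finset.mem_univ _, ho k⟩

theorem RLT_m_mem (c : ι → κ) (o o' : κ → ι) (ho : ∀ k, c (o k) = k) (ho' : ∀ k, c (o' k) = k)
    (d e : κ → ℕ) (he : ∀ k, e k ≤ d k) : RLT_m c o o' d e ∈ Mon c Finset.univ d := by
  constructor
  · intro i hi
    exact absurd (Finset.mem_univ i) hi
  · intro k
    have h1 : ∀ j, RLT_m c o o' d e j =
      (if j = o (c j) then (fun k => d k - e k) (c j) else 0) +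
        (if j = o' (c j) then e (c j) else 0) := fun j => rfl
    rw [Finset.sum_congr rfl (fun j _ => h1 j), Finset.sum_add_distrib,
      RLT_sum c o ho (fun k => d k - e k) k, RLT_sum c o' ho' e k]
    exact Nat.sub_add_cancel (he k)

theorem RLT_mono (c : ι → κ) (A : Finset ι) (d : κ → ℕ) (m : ι →₀ ℕ) (hm : m ∈ Mon c A d) :
    monomial m (1 : ℂ) ∈ Sec c A d := by
  rw [mem_Sec]
  intro m' hm'
  rw [coeff_monomial] at hm'
  by_cases h : m = m'
  · rw [← h]
    exact hm
  · rw [if_neg h] at hm'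
    exact absurd rfl hm'

theorem RLT_ev (x : ι → ℂ) (m : ι →₀ ℕ) :
    eval x (monomial m (1 : ℂ)) = ∏ i, x i ^ (m i) := by
  rw [eval_monomial, one_mul]
  exact Finsupp.prod_fintype _ _ (fun i => pow_zero _)

theorem RLT_ev1 (x : ι → ℂ) (m : ι →₀ ℕ) (h : ∀ i, x i = 1 ∨ m i = 0) :
    eval x (monomial m (1 : ℂ)) = 1 := by
  rw [RLT_ev]
  apply Finset.prod_eq_one
  intro i _
  rcases h i with h | h
  · rw [h, one_pow]
  · rw [h, pow_zero]

theorem RLT_ev0 (x : ι → ℂ) (m : ι →₀ ℕ) (i : ι) (h : x i = 0) (h' : m i ≠ 0) :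
    eval x (monomial m (1 : ℂ)) = 0 := by
  rw [RLT_ev]
  apply Finset.prod_eq_zero (Finset.mem_univ i)
  rw [h, zero_pow h']

theorem RLT_der (x : ι → ℂ) (m : ι →₀ ℕ) (j : ι) :
    eval x (pderiv j (monomial m (1 : ℂ))) =
      (m j : ℂ) * ∏ i, x i ^ ((m - Finsupp.single j 1 : ι →₀ ℕ) i) := by
  rw [pderiv_monomial, eval_monomial, one_mul]
  congr 1
  exact Finsupp.prod_fintype _ _ (fun i => pow_zero _)

theorem RLT_der0 (c : ι → κ) (T : Finset κ) (o' : κ → ι) (ho' : ∀ k, c (o' k) = k)
    (x : ι → ℂ) (hx : ∀ k ∈ T, x (o' k) = 0) (m : ι →₀ ℕ) (hm : 2 ≤ ∑ k ∈ T, m (o' k)) (j : ι) :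
    eval x (pderiv j (monomial m (1 : ℂ))) = 0 := by
  rw [RLT_der]
  have h1 : ∃ k ∈ T, (m - Finsupp.single j 1 : ι →₀ ℕ) (o' k) ≠ 0 := by
    by_contra hcon
    push Not at hcon
    have h2 : ∀ k ∈ T, m (o' k) ≤ (if k = c j then 1 else 0) := by
      intro k hk
      have h3 := hcon k hk
      rw [Finsupp.tsub_apply, Finsupp.single_apply] at h3
      by_cases h4 : j = o' k
      · have h5 : k = c j := by rw [h4, ho']
        rw [if_pos h5]
        rw [if_pos h4] at h3
        omega
      · rw [if_neg h4] at h3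
        omega
    have h6 := Finset.sum_le_sum h2
    rw [Finset.sum_ite_eq' T (c j) (fun _ => 1)] at h6
    have h7 : (if c j ∈ T then 1 else 0) ≤ 1 := by split_ifs <;> omega
    omega
  obtain ⟨k, hk, hk'⟩ := h1
  rw [Finset.prod_eq_zero (Finset.mem_univ (o' k)) (by rw [hx k hk, zero_pow hk']), mul_zero]

end

theorem RLT : RLT_stmt := by
  classical
  intro ι κ _ _ _ _ c T d hcol hd h2 hsum
  have hoo : ∀ k, ∃ p : ι × ι, c p.1 = k ∧ c p.2 = k ∧ (k ∈ T → p.2 ≠ p.1) := by
    intro k
    by_cases hk : k ∈ T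
    · obtain ⟨i, i', h1, h2, h3⟩ := h2 k hk
      exact ⟨(i, i'), h2, h3, fun _ => Ne.symm h1⟩
    · obtain ⟨i, hi⟩ := hcol k
      exact ⟨(i, i), hi, hi, fun h => absurd h hk⟩
  choose p hp1 hp2 hp3 using hoo
  obtain ⟨o, ho⟩ : ∃ o : κ → ι, o = fun k => (p k).1 := ⟨_, rfl⟩
  obtain ⟨o', ho'⟩ : ∃ o' : κ → ι, o' = fun k => (p k).2 := ⟨_, rfl⟩
  have hco : ∀ k, c (o k) = k := fun k => by rw [ho]; exact hp1 k
  have hco' : ∀ k, c (o' k) = k := fun k => by rw [ho']; exact hp2 k
  have hne : ∀ k ∈ T, o' k ≠ o k := fun k hk => by rw [ho, ho']; exact hp3 k hk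
  clear hp1 hp2 hp3 ho ho'
  obtain ⟨k₁, hk₁⟩ : T.Nonempty := by
    rw [Finset.nonempty_iff_ne_empty]
    rintro rfl
    simp at hsum
  obtain ⟨x, hx⟩ : ∃ x : ι → ℂ, x = fun i => if i = o (c i) then 1 else 0 := ⟨_, rfl⟩
  obtain ⟨x', hx'⟩ : ∃ x' : ι → ℂ, x' = fun i => if c i ∈ T ∧ i = o' (c i) then 1 else 0 :=
    ⟨_, rfl⟩
  have hx1 : ∀ i, i = o (c i) → x i = 1 := fun i h => by rw [hx]; exact if_pos h
  have hx0 : ∀ i, i ≠ o (c i) → x i = 0 := fun i h => by rw [hx]; exact if_neg h
  have hx'1 : ∀ i, c i ∈ T → i = o' (c i) → x' i = 1 := fun i h h' => by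
    rw [hx']; exact if_pos ⟨h, h'⟩
  have hx'0 : ∀ i, i ≠ o' (c i) → x' i = 0 := fun i h => by
    rw [hx']; exact if_neg (fun h' => h h'.2)
  have hxo : ∀ k ∈ T, x (o' k) = 0 := fun k hk => hx0 _ (by rw [hco']; exact hne k hk)
  have hxo' : ∀ k ∈ T, x' (o k) = 0 := fun k hk => hx'0 _ (by rw [hco]; exact (hne k hk).symm)
  have hp0 : ptc c T 0 (x, x') = x := by
    funext i
    unfold ptc
    simp
  have hp1a : ∀ k ∈ T, ptc c T 1 (x, x') (o k) = 0 := by
    intro k hk
    unfold ptc
    rw [hco, if_pos hk]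
    simp [hxo' k hk]
  have hm0 : ∀ e : κ → ℕ, ∀ k ∈ T, RLT_m c o o' d e (o' k) = e k := by
    intro e k hk
    rw [RLT_m_apply, hco', if_neg (hne k hk), if_pos rfl, zero_add]
  have hm1 : ∀ e : κ → ℕ, ∀ k ∈ T, RLT_m c o o' d e (o k) = d k - e k := by
    intro e k hk
    rw [RLT_m_apply, hco, if_neg (hne k hk).symm, if_pos rfl, add_zero]
  -- value at the point 2
  have hv2 : ∀ e : κ → ℕ, (∀ k, k ∉ T → e k = 0) →
      eval (ptc c T 2 (x, x')) (monomial (RLT_m c o o' d e) (1 : ℂ)) = 1 := by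
    intro e he
    apply RLT_ev1
    intro i
    by_cases hi : c i ∈ T
    · by_cases h1 : i = o (c i)
      · left
        unfold ptc
        rw [if_pos hi]
        simp only [Fin.isValue, Fin.reduceEq, if_false]
        rw [hx1 i h1, hx'0 i (fun h => hne (c i) hi (h.symm.trans h1)), add_zero]
      · by_cases h3 : i = o' (c i)
        · left
          unfold ptc
          rw [if_pos hi]
          simp only [Fin.isValue, Fin.reduceEq, if_false]
          rw [hx0 i h1, hx'1 i hi h3, zero_add]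
        · right
          rw [RLT_m_apply, if_neg h1, if_neg h3]
    · by_cases h1 : i = o (c i)
      · left
        unfold ptc
        rw [if_neg hi]
        exact hx1 i h1
      · right
        rw [RLT_m_apply, if_neg h1, he (c i) hi]
        simp
  -- value at the point 1
  have hv1 : ∀ e : κ → ℕ, (∀ k, k ∉ T → e k = 0) → (∀ k ∈ T, e k = d k) →
      eval (ptc c T 1 (x, x')) (monomial (RLT_m c o o' d e) (1 : ℂ)) = 1 := by
    intro e he he'
    apply RLT_ev1
    intro i
    by_cases hi : c i ∈ T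
    · by_cases h3 : i = o' (c i)
      · left
        unfold ptc
        rw [if_pos hi]
        simp only [Fin.isValue, one_ne_zero, if_false, if_true]
        exact hx'1 i hi h3
      · right
        rw [RLT_m_apply, if_neg h3, he' (c i) hi, Nat.sub_self]
        simp
    · by_cases h1 : i = o (c i)
      · left
        unfold ptc
        rw [if_neg hi]
        exact hx1 i h1
      · right
        rw [RLT_m_apply, if_neg h1, he (c i) hi]
        simp
  have hv1' : ∀ e : κ → ℕ, (∃ k ∈ T, e k < d k) →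
      eval (ptc c T 1 (x, x')) (monomial (RLT_m c o o' d e) (1 : ℂ)) = 0 := by
    rintro e ⟨k, hk, hlt⟩
    apply RLT_ev0 _ _ (o k) (hp1a k hk)
    rw [hm1 e k hk]
    omega
  -- value at the point 0
  have hv0 : eval (ptc c T 0 (x, x')) (monomial (RLT_m c o o' d (fun _ => 0)) (1 : ℂ)) = 1 := by
    rw [hp0]
    apply RLT_ev1
    intro i
    by_cases h1 : i = o (c i)
    · exact Or.inl (hx1 i h1)
    · right
      rw [RLT_m_apply, if_neg h1]
      simp
  have hv0' : ∀ e : κ → ℕ, (∃ k ∈ T, e k ≠ 0) →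
      eval (ptc c T 0 (x, x')) (monomial (RLT_m c o o' d e) (1 : ℂ)) = 0 := by
    rintro e ⟨k, hk, hlt⟩
    rw [hp0]
    apply RLT_ev0 _ _ (o' k) (hxo k hk)
    rw [hm0 e k hk]
    exact hlt
  -- the four exponents
  obtain ⟨e3, he3⟩ : ∃ e : κ → ℕ, e = fun k => if k ∈ T then d k else 0 := ⟨_, rfl⟩
  obtain ⟨eA, heA⟩ : ∃ e : κ → ℕ, e = fun k => if k = k₁ then 1 else 0 := ⟨_, rfl⟩
  obtain ⟨eB, heB⟩ : ∃ e : κ → ℕ, e = fun k => if k ∈ T then d k - (if k = k₁ then 1 else 0) else 0 :=
    ⟨_, rfl⟩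
  have h3T : ∀ k ∈ T, e3 k = d k := fun k hk => by rw [he3]; exact if_pos hk
  have h3n : ∀ k, k ∉ T → e3 k = 0 := fun k hk => by rw [he3]; exact if_neg hk
  have hAn : ∀ k, k ∉ T → eA k = 0 := fun k hk => by
    rw [heA]
    refine if_neg (fun h => hk ?_)
    rw [h]
    exact hk₁
  have hBn : ∀ k, k ∉ T → eB k = 0 := fun k hk => by rw [heB]; exact if_neg hk
  have hBT : ∀ k ∈ T, eB k = d k - (if k = k₁ then 1 else 0) := fun k hk => by
    rw [heB]; exact if_pos hk
  have hsumA : ∑ k ∈ T, eA k = 1 := by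
    rw [heA]
    simp [hk₁]
  have hsumB : ∑ k ∈ T, eB k = 2 := by
    have h1 : ∑ k ∈ T, eB k + ∑ k ∈ T, eA k = 3 := by
      rw [← Finset.sum_add_distrib, ← hsum]
      apply Finset.sum_congr rfl
      intro k hk
      rw [hBT k hk, heA]
      have := hd k hk
      by_cases h : k = k₁
      · simp only [h, if_true]
        rw [h] at this
        omega
      · simp only [h, if_false]
        omega
    omega
  have h3d : ∀ k, e3 k ≤ d k := fun k => by rw [he3]; dsimp only; split_ifs <;> omega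
  have hAd : ∀ k, eA k ≤ d k := fun k => by
    rw [heA]
    by_cases h : k = k₁
    · have := hd k₁ hk₁
      rw [← h] at this
      simpa [h] using hd k₁ hk₁
    · simp [h]
  have hBd : ∀ k, eB k ≤ d k := fun k => by rw [heB]; dsimp only; split_ifs <;> omega
  have hAlt : ∃ k ∈ T, eA k < d k := by
    by_contra hcon
    push Not at hcon
    have := Finset.sum_le_sum hcon
    omega
  have hBlt : ∃ k ∈ T, eB k < d k := by
    by_contra hcon
    push Not at hcon
    have := Finset.sum_le_sum hcon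
    omega
  have hB0 : ∃ k ∈ T, eB k ≠ 0 := by
    by_contra hcon
    push Not at hcon
    have := Finset.sum_eq_zero hcon
    omega
  have hA0 : ∃ k ∈ T, eA k ≠ 0 := by
    by_contra hcon
    push Not at hcon
    have := Finset.sum_eq_zero hcon
    omega
  have h30 : ∃ k ∈ T, e3 k ≠ 0 := ⟨k₁, hk₁, by rw [h3T k₁ hk₁]; have := hd k₁ hk₁; omega⟩
  have h0lt : ∃ k ∈ T, (fun _ : κ => 0) k < d k := ⟨k₁, hk₁, hd k₁ hk₁⟩
  -- the target functional
  have htB : tgtL c T (x, x') (monomial (RLT_m c o o' d eB) (1 : ℂ)) = 0 := by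
    rw [tgtL_apply]
    apply Finset.sum_eq_zero
    intro i _
    rw [RLT_der0 c T o' hco' x hxo _ _ i, mul_zero]
    rw [Finset.sum_congr rfl (fun k hk => hm0 eB k hk), hsumB]
  have htA : tgtL c T (x, x') (monomial (RLT_m c o o' d eA) (1 : ℂ)) = 1 := by
    rw [tgtL_apply, Finset.sum_eq_single (o' k₁)]
    · show x' (o' k₁) * eval x _ = 1
      rw [hx'1 _ (by rw [hco']; exact hk₁) (by rw [hco']), one_mul, RLT_der, hm0 eA k₁ hk₁]
      have h1 : eA k₁ = 1 := by rw [heA]; exact if_pos rfl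
      rw [h1, Nat.cast_one, one_mul]
      apply Finset.prod_eq_one
      intro i _
      by_cases h3 : i = o (c i)
      · rw [hx1 i h3, one_pow]
      · have h4 : (RLT_m c o o' d eA - Finsupp.single (o' k₁) 1 : ι →₀ ℕ) i = 0 := by
          rw [Finsupp.tsub_apply, RLT_m_apply, if_neg h3, zero_add, Finsupp.single_apply]
          by_cases h5 : i = o' (c i)
          · rw [if_pos h5]
            by_cases h6 : c i = k₁
            · rw [h6] at h5
              rw [if_pos h5.symm, h6, h1]
            · rw [heA]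
              simp [h6]
          · rw [if_neg h5]
            simp
        rw [h4, pow_zero]
    · intro i hi hne'
      rw [Finset.mem_filter] at hi
      show x' i * eval x _ = 0
      by_cases h5 : i = o' (c i)
      · rw [RLT_der]
        have h6 : c i ≠ k₁ := by
          intro h7
          rw [h7] at h5
          exact hne' h5
        have h8 : RLT_m c o o' d eA i = 0 := by
          rw [h5, hm0 eA (c i) hi.2, heA]
          exact if_neg h6
        rw [h8, Nat.cast_zero, zero_mul, mul_zero]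
      · rw [hx'0 i h5, zero_mul]
    · intro h
      exfalso
      apply h
      rw [Finset.mem_filter]
      exact ⟨Finset.mem_univ _, by rw [hco']; exact hk₁⟩
  let f0 : ↥(Sec c Finset.univ d) := ⟨monomial (RLT_m c o o' d (fun _ => 0)) 1,
    RLT_mono c _ d _ (RLT_m_mem c o o' hco hco' d _ (fun _ => Nat.zero_le _))⟩
  let f3 : ↥(Sec c Finset.univ d) := ⟨monomial (RLT_m c o o' d e3) 1,
    RLT_mono c _ d _ (RLT_m_mem c o o' hco hco' d _ h3d)⟩
  let fA : ↥(Sec c Finset.univ d) := ⟨monomial (RLT_m c o o' d eA) 1,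
    RLT_mono c _ d _ (RLT_m_mem c o o' hco hco' d _ hAd)⟩
  let fB : ↥(Sec c Finset.univ d) := ⟨monomial (RLT_m c o o' d eB) 1,
    RLT_mono c _ d _ (RLT_m_mem c o o' hco hco' d _ hBd)⟩
  have hval : ∀ (ρ : Fin 4) (a : Fin 3) (f : ↥(Sec c Finset.univ d)),
      roleS c T d ρ (x, x') f (some (a, none)) =
        eval (ptc c T a (x, x')) (f : MvPolynomial ι ℂ) := by
    intro ρ a f
    simp [roleS, roleL, used, roleF]
  have htgt : ∀ f : ↥(Sec c Finset.univ d),
      roleS c T d 1 (x, x') f none = tgtL c T (x, x') (f : MvPolynomial ι ℂ) := by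
    intro f
    simp [roleS, roleL, used, roleF]
  refine ⟨⟨(x, x'), ?_⟩, ⟨(x, x'), ?_⟩⟩
  · have hli : LinearIndependent ℂ (fun i : Fin 4 => roleS c T d 1 (x, x') (![f0, f3, fA, fB] i)) := by
      rw [Fintype.linearIndependent_iff]
      intro g hg
      rw [Fin.sum_univ_four] at hg
      have e0 := congrFun hg (some (0, none))
      have e1 := congrFun hg (some (1, none))
      have e2 := congrFun hg (some (2, none))
      have e4 := congrFun hg none
      simp only [Matrix.cons_val, Pi.add_apply, Pi.smul_apply, smul_eq_mul, Pi.zero_apply,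
        hval, htgt] at e0 e1 e2 e4
      simp only [f0, f3, fA, fB, hv0, hv0' e3 h30, hv0' eA hA0, hv0' eB hB0] at e0
      simp only [f0, f3, fA, fB, hv1' _ h0lt, hv1 e3 h3n h3T, hv1' eA hAlt, hv1' eB hBlt] at e1
      simp only [f0, f3, fA, fB, hv2 _ (fun _ _ => rfl), hv2 e3 h3n, hv2 eA hAn, hv2 eB hBn] at e2
      simp only [f0, f3, fA, fB, htA, htB] at e4
      have g0 : g 0 = 0 := by linear_combination e0
      have g1 : g 1 = 0 := by linear_combination e1
      rw [g0, g1] at e2 e4
      have g2 : g 2 = 0 := by linear_combination e4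
      rw [g2] at e2
      have g3 : g 3 = 0 := by linear_combination e2
      intro i
      fin_cases i
      · exact g0
      · exact g1
      · exact g2
      · exact g3
    have := RLT_rank (roleS c T d 1 (x, x')) ![f0, f3, fA, fB] hli
    simpa using this
  · have hli : LinearIndependent ℂ (fun i : Fin 3 => roleS c T d 0 (x, x') (![f0, f3, fB] i)) := by
      rw [Fintype.linearIndependent_iff]
      intro g hg
      rw [Fin.sum_univ_three] at hg
      have e0 := congrFun hg (some (0, none))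
      have e1 := congrFun hg (some (1, none))
      have e2 := congrFun hg (some (2, none))
      simp only [Matrix.cons_val, Pi.add_apply, Pi.smul_apply, smul_eq_mul, Pi.zero_apply,
        hval] at e0 e1 e2
      simp only [f0, f3, fB, hv0, hv0' e3 h30, hv0' eB hB0] at e0
      simp only [f0, f3, fB, hv1' _ h0lt, hv1 e3 h3n h3T, hv1' eB hBlt] at e1
      simp only [f0, f3, fB, hv2 _ (fun _ _ => rfl), hv2 e3 h3n, hv2 eB hBn] at e2
      have g0 : g 0 = 0 := by linear_combination e0
      have g1 : g 1 = 0 := by linear_combination e1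
      rw [g0, g1] at e2
      have g2 : g 2 = 0 := by linear_combination e2
      intro i
      fin_cases i
      · exact g0
      · exact g1
      · exact g2
    have := RLT_rank (roleS c T d 0 (x, x')) ![f0, f3, fB] hli
    simpa using this

end Pool.Agent.SG
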